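import Pool.Agent.LE.StmtsB
import Pool.Agent.Helper54_QE.MainE2

/-!
# BVE: boundary values of the Green functions, for almost all energies
-/

set_option autoImplicit false

open MeasureTheory ProbabilityTheory Function

open scoped ENNReal BigOperators

noncomputable section

namespace Pool.Agent.LE.H39B

open Pool.Agent.Anderson Pool.Agent.Loc Pool.Agent.Mob Pool.Agent.Helper54.Bal Pool.Agent.LE

theorem bve : BveStmt := by
  intro d σ _
  obtain ⟨e, gg, hh, D⟩ := QE.exists_dat (d := d) (ι := Empty) (A := fun i => i.elim)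
    (fun i => i.elim) QE.step QE.cauchy QE.tight QE.seq (gl σ)
  refine ⟨e, D.pos, D.zero, ?_⟩
  have h1 := (Measure.measurePreserving_swap (μ := QE.lam)
    (ν := QE.PP d (gl σ))).quasiMeasurePreserving.ae D.gl
  have h2 := Measure.ae_ae_of_ae_prod h1
  refine QE.ac_lam.ae_le ?_
  filter_upwards [h2] with E hE
  refine ⟨fun V x y => gg y x (V, E),
    fun x y => (D.mg y x).comp (measurable_id.prodMk measurable_const), ?_⟩
  have h3 : ∀ᵐ V ∂(QE.PP d (gl σ)), ∀ x y,
      Filter.Tendsto (fun k => G V (zz (e k) E) (del x) y) Filter.atTop (nhds (gg y x (V, E))) := by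
    filter_upwards [hE] with V hV
    exact fun x y => hV y x
  exact h3

end Pool.Agent.LE.H39B
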