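import Pool.Agent.Helper59_LE.Blo

/-!
# DBL: the mean and the second moment when the distance is doubled
-/

set_option autoImplicit false
set_option linter.unusedSectionVars false

open MeasureTheory ProbabilityTheory Function Filter

open scoped ENNReal BigOperators

noncomputable section

namespace Pool.Agent.LE.H39

open Pool.Agent.Anderson Pool.Agent.Loc Pool.Agent.Helper54.Bal
open Pool.Agent.LE.H59A

variable {d : ℕ}

theorem abs_av_le {R : ℕ} {f : Site d → ℝ} {B : ℝ}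
    (h : ∀ a ∈ box (0 : Site d) R, |f a| ≤ B) : |Av R f| ≤ B := by
  rw [abs_le]
  constructor
  · calc -B = Av R (fun _ : Site d => -B) := (av_const R (-B)).symm
      _ ≤ Av R f := av_mono fun a ha => (abs_le.1 (h a ha)).1
  · calc Av R f ≤ Av R (fun _ : Site d => B) := av_mono fun a ha => (abs_le.1 (h a ha)).2
      _ = B := av_const R B

/-- the pointwise inequality for the squares -/
theorem point_sq {ℓ : ℝ} (hℓ : 0 < ℓ) (x u v : ℝ) :
    (x / (2 * ℓ)) ^ 2 ≤ (((u / ℓ) ^ 2 + (v / ℓ) ^ 2) / 2 - (u / ℓ - v / ℓ) ^ 2 / 4) +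
      ((((u / ℓ) ^ 2 + (v / ℓ) ^ 2) / 2) / (2 * ℓ) +
        ((max 0 (x - u - v)) ^ 2 * (1 / (2 * ℓ) + 1 / (4 * ℓ ^ 2)) +
          (max 0 (-x)) ^ 2 * (1 / (4 * ℓ ^ 2)))) := by
  obtain ⟨a, ha⟩ : ∃ a, a = u / ℓ := ⟨_, rfl⟩
  obtain ⟨b, hb⟩ : ∃ b, b = v / ℓ := ⟨_, rfl⟩
  obtain ⟨t, ht⟩ : ∃ t, t = x / (2 * ℓ) := ⟨_, rfl⟩
  obtain ⟨ρ, hρ⟩ : ∃ ρ, ρ = max 0 (x - u - v) := ⟨_, rfl⟩
  obtain ⟨m, hm⟩ : ∃ m, m = max 0 (-x) := ⟨_, rfl⟩
  obtain ⟨i, hi⟩ : ∃ i : ℝ, i = 1 / (2 * ℓ) := ⟨_, rfl⟩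
  have hi0 : 0 < i := by rw [hi]; positivity
  have hρ0 : 0 ≤ ρ := by rw [hρ]; exact le_max_left _ _
  have hm0 : 0 ≤ m := by rw [hm]; exact le_max_left _ _
  have e1 : 1 / (4 * ℓ ^ 2) = i ^ 2 := by
    rw [hi]
    field_simp
    norm_num
  have e2 : (((u / ℓ) ^ 2 + (v / ℓ) ^ 2) / 2) / (2 * ℓ) = ((a ^ 2 + b ^ 2) / 2) * i := by
    rw [hi, ha, hb]
    ring
  have e3 : t = x * i := by
    rw [ht, hi]
    ring
  have h1 : t ≤ (a + b) / 2 + ρ * i := by
    have h2 : x ≤ u + v + ρ := by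
      have := le_max_right 0 (x - u - v)
      rw [← hρ] at this
      linarith
    have h3 : (a + b) / 2 = (u + v) * i := by
      rw [ha, hb, hi]
      field_simp
    rw [h3, e3, ← add_mul]
    exact mul_le_mul_of_nonneg_right h2 hi0.le
  rw [e2, e1, ← hρ, ← hm, ← ht, ← ha, ← hb, ← hi]
  have k1 : 0 ≤ ρ ^ 2 * i ^ 2 := by positivity
  have k2 : 0 ≤ ρ ^ 2 * i := by positivity
  have k3 : 0 ≤ m ^ 2 * i ^ 2 := by positivity
  have k4 : 0 ≤ (a + b) ^ 2 / 4 := by positivity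
  have k5 : 0 ≤ ((a ^ 2 + b ^ 2) / 2) * i := by positivity
  have k6 : (a ^ 2 + b ^ 2) / 2 - (a - b) ^ 2 / 4 = ((a + b) / 2) ^ 2 := by ring
  rw [k6]
  rcases le_total 0 x with hx | hx
  · -- the positive part
    have ht0 : 0 ≤ t := by rw [e3]; positivity
    obtain ⟨U, hU⟩ : ∃ U, U = (a + b) / 2 := ⟨_, rfl⟩
    rw [← hU] at h1 ⊢
    have h2 : t ≤ |U| + ρ * i := h1.trans (by linarith [le_abs_self U])
    have h3 : t ^ 2 ≤ (|U| + ρ * i) ^ 2 := pow_le_pow_left₀ ht0 h2 2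
    have h4 : (|U| + ρ * i) ^ 2 = U ^ 2 + 2 * (|U| * ρ) * i + ρ ^ 2 * i ^ 2 := by
      rw [← sq_abs U]
      ring
    have h5 : 2 * (|U| * ρ) ≤ U ^ 2 + ρ ^ 2 := by
      rw [← sq_abs U]
      nlinarith [sq_nonneg (|U| - ρ)]
    have h6 : U ^ 2 ≤ (a ^ 2 + b ^ 2) / 2 := by
      rw [hU]
      nlinarith [sq_nonneg (a - b)]
    have h7 : 2 * (|U| * ρ) * i ≤ ((a ^ 2 + b ^ 2) / 2 + ρ ^ 2) * i :=
      mul_le_mul_of_nonneg_right (by linarith) hi0.le
    nlinarith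
  · -- the negative part
    have h2 : m = -x := by
      rw [hm]
      exact max_eq_right (by linarith)
    have h3 : t ^ 2 = m ^ 2 * i ^ 2 := by
      rw [h2, e3]
      ring
    have h4 : 0 ≤ ((a + b) / 2) ^ 2 := sq_nonneg _
    nlinarith

theorem dbl (havs : AvsStmt) : DblStmt := by
  intro d K C hC hK
  have hKr : (1 : ℝ) ≤ K := by exact_mod_cast hK
  obtain ⟨s, hs⟩ : ∃ s : ℝ, s = √C * (K + 1) := ⟨_, rfl⟩
  obtain ⟨c, hc⟩ : ∃ c : ℝ, c = C * ((K : ℝ) + 1) ^ 2 := ⟨_, rfl⟩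
  have hs0 : 0 ≤ s := by rw [hs]; positivity
  have hc0 : 0 ≤ c := by rw [hc]; positivity
  have hCs : √C ≤ s := by
    rw [hs]
    nlinarith [Real.sqrt_nonneg C]
  have hCc : C ≤ c := by
    rw [hc]
    have h1 : (1 : ℝ) ≤ ((K : ℝ) + 1) ^ 2 := by nlinarith
    nlinarith
  refine ⟨2 + s + 2 * c, by positivity, fun ℓ hℓ => ?_⟩
  have hℓr : (1 : ℝ) ≤ ℓ := by exact_mod_cast hℓ
  have hℓ0 : (0 : ℝ) < ℓ := by linarith
  obtain ⟨R₀, hR₀⟩ := havs d (K * ℓ) (s + c) (1 / ℓ) (by positivity)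
  refine ⟨R₀, fun R N hR hN Ω _ P _ D hD y hy => ?_⟩
  have h4K : 4 * K * ℓ = 4 * (K * ℓ) := by ring
  have hs1 := sd_sm (ℓ := ℓ) hy
  have hs2 := sd_sm (ℓ := 2 * ℓ) hy
  have hs2' : K * (2 * ℓ) = 2 * (K * ℓ) := by ring
  have hin0 : ∀ a b : Site d, sd 0 a ≤ R + K * ℓ → sd 0 b ≤ 2 * (K * ℓ) →
      a + b ∈ box (0 : Site d) N := by
    intro a b ha hb
    rw [mem_box]
    have h1 := sd_triangle 0 a (a + b)
    rw [sd_add_right] at h1
    omega
  have hin00 : ∀ a : Site d, sd 0 a ≤ R + K * ℓ → a ∈ box (0 : Site d) N := by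
    intro a ha
    rw [mem_box]
    omega
  have hsplit : ∀ a : Site d, a + sm (2 * ℓ) y = (a + sm ℓ y) + sm ℓ y := by
    intro a
    rw [two_mul, sm_add, add_assoc]
  -- the functions
  obtain ⟨f, hf⟩ : ∃ f : Site d → ℝ, f = fun a => ∫ ω, D ω a (a + sm ℓ y) / ℓ ∂P := ⟨_, rfl⟩
  obtain ⟨g, hg⟩ : ∃ g : Site d → ℝ, g = fun a => ∫ ω, (D ω a (a + sm ℓ y) / ℓ) ^ 2 ∂P :=
    ⟨_, rfl⟩
  have memD : ∀ a b : Site d, a ∈ box (0 : Site d) N → b ∈ box (0 : Site d) N →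
      MemLp (fun ω => D ω a b / ℓ) 2 P := by
    intro a b ha hb
    have h1 := (mem2 hD ha hb).const_mul (1 / (ℓ : ℝ))
    refine (memLp_congr_ae (Filter.Eventually.of_forall fun ω => ?_)).1 h1
    ring
  have hDl : ∀ a b : Site d, a ∈ box (0 : Site d) N → a + b ∈ box (0 : Site d) N →
      sd 0 b ≤ K * ℓ → ∫ ω, |D ω a (a + b) / ℓ| ∂P ≤ s := by
    intro a b ha hab hb
    have h1 := abs_D hD hC.le ha hab
    have h2 : ∀ ω, |D ω a (a + b) / ℓ| = |D ω a (a + b)| / ℓ := by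
      intro ω
      rw [abs_div, abs_of_pos hℓ0]
    simp_rw [h2]
    rw [integral_div, div_le_iff₀ hℓ0]
    refine h1.trans ?_
    rw [hs, mul_assoc]
    apply mul_le_mul_of_nonneg_left _ (Real.sqrt_nonneg _)
    rw [sd_add_right]
    have h3 : (sd 0 b : ℝ) ≤ K * ℓ := by exact_mod_cast hb
    nlinarith
  have hDl2 : ∀ a b : Site d, a ∈ box (0 : Site d) N → a + b ∈ box (0 : Site d) N →
      sd 0 b ≤ K * ℓ → ∫ ω, (D ω a (a + b) / ℓ) ^ 2 ∂P ≤ c := by
    intro a b ha hab hb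
    have h1 := hD.sq a ha (a + b) hab
    simp_rw [div_pow]
    rw [integral_div, div_le_iff₀ (by positivity)]
    refine h1.trans ?_
    rw [hc, mul_assoc]
    apply mul_le_mul_of_nonneg_left _ hC.le
    rw [sd_add_right, ← mul_pow]
    apply pow_le_pow_left₀ (by positivity)
    have h3 : (sd 0 b : ℝ) ≤ K * ℓ := by exact_mod_cast hb
    nlinarith
  have hfb : ∀ a ∈ box (0 : Site d) (R + K * ℓ), |f a| ≤ s := by
    intro a ha
    rw [mem_box] at ha
    have h1 := hDl a (sm ℓ y) (hin00 a ha) (hin0 a _ ha (by omega)) hs1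
    rw [hf]
    exact (abs_integral_le_integral_abs).trans h1
  have hgb : ∀ a ∈ box (0 : Site d) (R + K * ℓ), |g a| ≤ c := by
    intro a ha
    rw [mem_box] at ha
    have h1 := hDl2 a (sm ℓ y) (hin00 a ha) (hin0 a _ ha (by omega)) hs1
    rw [hg]
    simp only
    rw [abs_of_nonneg (integral_nonneg fun ω => sq_nonneg _)]
    exact h1
  have hsub : ∀ a ∈ box (0 : Site d) R, a ∈ box (0 : Site d) (R + K * ℓ) := by
    intro a ha
    rw [mem_box] at ha ⊢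
    omega
  have hAf : Av R (fun a => f (a + sm ℓ y)) ≤ Av R f + 1 / ℓ := by
    have := (abs_le.1 (hR₀ R hR f (sm ℓ y) hs1 fun a ha => (hfb a ha).trans (by linarith))).2
    linarith
  have hAg : Av R (fun a => g (a + sm ℓ y)) ≤ Av R g + 1 / ℓ := by
    have := (abs_le.1 (hR₀ R hR g (sm ℓ y) hs1 fun a ha => (hgb a ha).trans (by linarith))).2
    linarith
  have hfA : Av R f = hA P D R y ℓ := by rw [hf]; rfl
  have hgA : Av R g = sA P D R y ℓ := by rw [hg]; rfl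
  have hdiv : ∀ q : ℝ, q ≤ 2 + s + 2 * c → q / ℓ ≤ (2 + s + 2 * c) / ℓ := fun q hq =>
    div_le_div_of_nonneg_right hq hℓ0.le
  refine ⟨?_, ?_, ?_, ?_, ?_⟩
  · rw [← hfA]
    exact (abs_av_le fun a ha => hfb a (hsub a ha)).trans (by linarith)
  · rw [← hgA]
    exact (abs_av_le fun a ha => hgb a (hsub a ha)).trans (by linarith)
  · unfold vA
    calc (0 : ℝ) = Av R (fun _ : Site d => (0 : ℝ)) := (av_const R 0).symm
      _ ≤ _ := av_mono fun a _ => integral_nonneg fun ω => sq_nonneg _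
  · -- the mean
    have hpt : ∀ a ∈ box (0 : Site d) R,
        ∫ ω, D ω a (a + sm (2 * ℓ) y) / ((2 * ℓ : ℕ) : ℝ) ∂P ≤
          (f a + f (a + sm ℓ y)) / 2 + √C / (2 * ℓ) := by
      intro a ha
      rw [mem_box] at ha
      have ha' : sd 0 a ≤ R + K * ℓ := by omega
      have e0 := hin00 a ha'
      have e1 : a + sm ℓ y ∈ box (0 : Site d) N := hin0 a _ ha' (by omega)
      have e2 : a + sm (2 * ℓ) y ∈ box (0 : Site d) N := hin0 a _ ha' (by omega)
      have i0 : Integrable (fun ω => D ω a (a + sm ℓ y)) P := (mem2 hD e0 e1).integrable one_le_two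
      have i1 : Integrable (fun ω => D ω (a + sm ℓ y) (a + sm (2 * ℓ) y)) P :=
        (mem2 hD e1 e2).integrable one_le_two
      have i2 : Integrable (fun ω => D ω a (a + sm (2 * ℓ) y)) P :=
        (mem2 hD e0 e2).integrable one_le_two
      have i3 : Integrable (fun ω => max 0 (D ω a (a + sm (2 * ℓ) y) - D ω a (a + sm ℓ y) -
          D ω (a + sm ℓ y) (a + sm (2 * ℓ) y))) P := (mem2_tri hD e0 e1 e2).integrable one_le_two
      have h1 : ∫ ω, D ω a (a + sm (2 * ℓ) y) ∂P ≤ ∫ ω, (D ω a (a + sm ℓ y) +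
          D ω (a + sm ℓ y) (a + sm (2 * ℓ) y) + max 0 (D ω a (a + sm (2 * ℓ) y) -
          D ω a (a + sm ℓ y) - D ω (a + sm ℓ y) (a + sm (2 * ℓ) y))) ∂P := by
        apply integral_mono i2 ((i0.add i1).add i3)
        intro ω
        have := le_max_right 0 (D ω a (a + sm (2 * ℓ) y) - D ω a (a + sm ℓ y) -
          D ω (a + sm ℓ y) (a + sm (2 * ℓ) y))
        simp only [Pi.add_apply]
        linarith
      have h2 := tri_le hD hC.le e0 e1 e2
      have i01 : Integrable (fun ω => D ω a (a + sm ℓ y) +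
          D ω (a + sm ℓ y) (a + sm (2 * ℓ) y)) P := i0.add i1
      rw [integral_add i01 i3, integral_add i0 i1] at h1
      rw [integral_div, hf]
      simp only
      rw [← hsplit, integral_div, integral_div]
      push_cast
      have h3 : (∫ ω, D ω a (a + sm (2 * ℓ) y) ∂P) / (2 * ℓ) ≤
          (∫ ω, D ω a (a + sm ℓ y) ∂P + ∫ ω, D ω (a + sm ℓ y) (a + sm (2 * ℓ) y) ∂P + √C) /
            (2 * ℓ) := div_le_div_of_nonneg_right (by linarith) (by positivity)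
      refine h3.trans (le_of_eq ?_)
      field_simp
    unfold hA
    refine (av_mono hpt).trans ?_
    rw [av_add, av_div, av_add, av_const]
    have h3 := hdiv (1 / 2 + √C / 2) (by linarith)
    have h4 : (1 / 2 + √C / 2) / ℓ = 1 / ℓ / 2 + √C / (2 * ℓ) := by
      field_simp
    rw [hfA] at hAf ⊢
    change (hA P D R y ℓ + _) / 2 + _ ≤ hA P D R y ℓ + _
    linarith
  · -- the second moment
    have hpt : ∀ a ∈ box (0 : Site d) R,
        ∫ ω, (D ω a (a + sm (2 * ℓ) y) / ((2 * ℓ : ℕ) : ℝ)) ^ 2 ∂P ≤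
          ((g a + g (a + sm ℓ y)) / 2 - (∫ ω, (D ω a (a + sm ℓ y) / ℓ -
            D ω (a + sm ℓ y) (a + sm (2 * ℓ) y) / ℓ) ^ 2 ∂P) / 4) +
          (c / (2 * ℓ) + (C * (1 / (2 * ℓ) + 1 / (4 * (ℓ : ℝ) ^ 2)) +
            C * (1 / (4 * (ℓ : ℝ) ^ 2)))) := by
      intro a ha
      rw [mem_box] at ha
      have ha' : sd 0 a ≤ R + K * ℓ := by omega
      have e0 := hin00 a ha'
      have e1 : a + sm ℓ y ∈ box (0 : Site d) N := hin0 a _ ha' (by omega)
      have e2 : a + sm (2 * ℓ) y ∈ box (0 : Site d) N := hin0 a _ ha' (by omega)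
      have m0 := memD a _ e0 e1
      have m1 := memD (a + sm ℓ y) _ e1 e2
      have j0 : Integrable (fun ω => (D ω a (a + sm ℓ y) / ℓ) ^ 2) P :=
        (memLp_two_iff_integrable_sq m0.1).1 m0
      have j1 : Integrable (fun ω => (D ω (a + sm ℓ y) (a + sm (2 * ℓ) y) / ℓ) ^ 2) P :=
        (memLp_two_iff_integrable_sq m1.1).1 m1
      have m01 := m0.sub m1
      have j01 : Integrable (fun ω => (D ω a (a + sm ℓ y) / ℓ -
          D ω (a + sm ℓ y) (a + sm (2 * ℓ) y) / ℓ) ^ 2) P :=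
        (memLp_two_iff_integrable_sq m01.1).1 m01
      have m3 := mem2_tri hD e0 e1 e2
      have j3 : Integrable (fun ω => (max 0 (D ω a (a + sm (2 * ℓ) y) - D ω a (a + sm ℓ y) -
          D ω (a + sm ℓ y) (a + sm (2 * ℓ) y))) ^ 2) P :=
        (memLp_two_iff_integrable_sq m3.1).1 m3
      have m4 : MemLp (fun ω => max 0 (-D ω a (a + sm (2 * ℓ) y))) 2 P := by
        refine (mem2 hD e0 e2).mono ?_ ?_
        · exact (measurable_const.max (hD.meas _ _).neg).aestronglyMeasurable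
        · refine Filter.Eventually.of_forall fun ω => ?_
          rw [Real.norm_eq_abs, Real.norm_eq_abs, abs_of_nonneg (le_max_left _ _)]
          exact max_le (abs_nonneg _) (neg_le_abs _)
      have j4 : Integrable (fun ω => (max 0 (-D ω a (a + sm (2 * ℓ) y))) ^ 2) P :=
        (memLp_two_iff_integrable_sq m4.1).1 m4
      have j5 : Integrable (fun ω => (D ω a (a + sm (2 * ℓ) y) / ((2 * ℓ : ℕ) : ℝ)) ^ 2) P := by
        have h1 := (hD.int a e0 _ e2).div_const (((2 * ℓ : ℕ) : ℝ) ^ 2)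
        refine (integrable_congr (Filter.Eventually.of_forall fun ω => ?_)).1 h1
        exact (div_pow _ _ _).symm
      have k1 : Integrable (fun ω => ((D ω a (a + sm ℓ y) / ℓ) ^ 2 +
          (D ω (a + sm ℓ y) (a + sm (2 * ℓ) y) / ℓ) ^ 2) / 2) P := (j0.add j1).div_const 2
      have k2 : Integrable (fun ω => (D ω a (a + sm ℓ y) / ℓ -
          D ω (a + sm ℓ y) (a + sm (2 * ℓ) y) / ℓ) ^ 2 / 4) P := j01.div_const 4
      have k12 : Integrable (fun ω => ((D ω a (a + sm ℓ y) / ℓ) ^ 2 +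
          (D ω (a + sm ℓ y) (a + sm (2 * ℓ) y) / ℓ) ^ 2) / 2 - (D ω a (a + sm ℓ y) / ℓ -
          D ω (a + sm ℓ y) (a + sm (2 * ℓ) y) / ℓ) ^ 2 / 4) P := k1.sub k2
      have k3 : Integrable (fun ω => (((D ω a (a + sm ℓ y) / ℓ) ^ 2 +
          (D ω (a + sm ℓ y) (a + sm (2 * ℓ) y) / ℓ) ^ 2) / 2) / (2 * ℓ)) P := k1.div_const _
      have k4 : Integrable (fun ω => (max 0 (D ω a (a + sm (2 * ℓ) y) - D ω a (a + sm ℓ y) -
          D ω (a + sm ℓ y) (a + sm (2 * ℓ) y))) ^ 2 * (1 / (2 * ℓ) + 1 / (4 * (ℓ : ℝ) ^ 2))) P :=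
        j3.mul_const _
      have k5 : Integrable (fun ω => (max 0 (-D ω a (a + sm (2 * ℓ) y))) ^ 2 *
          (1 / (4 * (ℓ : ℝ) ^ 2))) P := j4.mul_const _
      have k45 : Integrable (fun ω => (max 0 (D ω a (a + sm (2 * ℓ) y) - D ω a (a + sm ℓ y) -
          D ω (a + sm ℓ y) (a + sm (2 * ℓ) y))) ^ 2 * (1 / (2 * ℓ) + 1 / (4 * (ℓ : ℝ) ^ 2)) +
          (max 0 (-D ω a (a + sm (2 * ℓ) y))) ^ 2 * (1 / (4 * (ℓ : ℝ) ^ 2))) P := k4.add k5
      have k345 : Integrable (fun ω => (((D ω a (a + sm ℓ y) / ℓ) ^ 2 +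
          (D ω (a + sm ℓ y) (a + sm (2 * ℓ) y) / ℓ) ^ 2) / 2) / (2 * ℓ) +
          ((max 0 (D ω a (a + sm (2 * ℓ) y) - D ω a (a + sm ℓ y) -
          D ω (a + sm ℓ y) (a + sm (2 * ℓ) y))) ^ 2 * (1 / (2 * ℓ) + 1 / (4 * (ℓ : ℝ) ^ 2)) +
          (max 0 (-D ω a (a + sm (2 * ℓ) y))) ^ 2 * (1 / (4 * (ℓ : ℝ) ^ 2)))) P := k3.add k45
      refine (integral_mono j5 (k12.add k345) fun ω => ?_).trans ?_
      · have := point_sq hℓ0 (D ω a (a + sm (2 * ℓ) y)) (D ω a (a + sm ℓ y))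
          (D ω (a + sm ℓ y) (a + sm (2 * ℓ) y))
        simp only [Nat.cast_mul, Nat.cast_ofNat]
        exact this
      · rw [integral_add' k12 k345, integral_sub k1 k2, integral_add k3 k45, integral_add k4 k5,
          integral_mul_const, integral_mul_const, integral_div, integral_div, integral_div,
          integral_div, integral_add j0 j1]
        have b0 : g a = ∫ ω, (D ω a (a + sm ℓ y) / ℓ) ^ 2 ∂P := by rw [hg]
        have b1 : g (a + sm ℓ y) =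
            ∫ ω, (D ω (a + sm ℓ y) (a + sm (2 * ℓ) y) / ℓ) ^ 2 ∂P := by
          rw [hg]
          simp only
          rw [← hsplit]
        rw [← b0, ← b1]
        have c0 : |g a| ≤ c := hgb a (by rw [mem_box]; exact ha')
        have c1 : |g (a + sm ℓ y)| ≤ c := hgb _ (by
          rw [mem_box]
          have h1 := sd_triangle 0 a (a + sm ℓ y)
          rw [sd_add_right] at h1
          omega)
        have c2 := (abs_le.1 c0).2
        have c3 := (abs_le.1 c1).2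
        have d1 : (g a + g (a + sm ℓ y)) / 2 / (2 * ℓ) ≤ c / (2 * ℓ) :=
          div_le_div_of_nonneg_right (by linarith) (by positivity)
        have d2 := mul_le_mul_of_nonneg_right (hD.tri a e0 _ e1 _ e2)
          (show (0 : ℝ) ≤ 1 / (2 * ℓ) + 1 / (4 * (ℓ : ℝ) ^ 2) by positivity)
        have d3 := mul_le_mul_of_nonneg_right (hD.neg a e0 _ e2)
          (show (0 : ℝ) ≤ 1 / (4 * (ℓ : ℝ) ^ 2) by positivity)
        linarith
    have hsA2 : sA P D R y (2 * ℓ) = Av R (fun a =>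
        ∫ ω, (D ω a (a + sm (2 * ℓ) y) / ((2 * ℓ : ℕ) : ℝ)) ^ 2 ∂P) := rfl
    rw [hsA2]
    refine (av_mono hpt).trans ?_
    rw [av_add, av_sub, av_div, av_add, av_div, av_const]
    have hv : (Av R fun a => ∫ ω, (D ω a (a + sm ℓ y) / ℓ -
        D ω (a + sm ℓ y) (a + sm (2 * ℓ) y) / ℓ) ^ 2 ∂P) = vA P D R y ℓ := rfl
    rw [hv]
    change (Av R g + _) / 2 - _ + _ ≤ _
    rw [hgA] at hAg ⊢
    have h3 := hdiv (1 / 2 + c / 2 + C) (by linarith)
    have h5 : 1 / (4 * (ℓ : ℝ) ^ 2) ≤ 1 / (4 * ℓ) := by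
      apply one_div_le_one_div_of_le (by positivity)
      nlinarith
    have h6 : C * (1 / (4 * (ℓ : ℝ) ^ 2)) ≤ C * (1 / (4 * ℓ)) :=
      mul_le_mul_of_nonneg_left h5 hC.le
    have h4 : (1 / 2 + c / 2 + C) / ℓ = 1 / ℓ / 2 + c / (2 * ℓ) + (C * (1 / (2 * ℓ)) +
        C * (1 / (4 * ℓ)) + C * (1 / (4 * ℓ))) := by
      field_simp
      ring
    rw [mul_add]
    linarith

end Pool.Agent.LE.H39
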