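import Pool.Agent.LE.StmtsR
import Pool.Agent.Helper15_LE.NOE

/-!
# Row NXJ: from the site `0` and fixed constants to all eigenfunctions, lower bound for the rate
-/

set_option autoImplicit false

open MeasureTheory Function

open scoped ENNReal BigOperators

noncomputable section

namespace Pool.Agent.LE.H39R

open Pool.Agent.Anderson Pool.Agent.Loc Pool.Agent.Helper54.Bal
  Pool.Agent.Helper96.EXP Pool.Agent.LE Pool.Agent.LE.H15

variable {d : ℕ}

/-- a real solution which does not vanish at `y` gives a normalised solution of the translated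
potential -/
theorem sol_of_real' {V : Site d → ℝ} {E B m : ℝ} (hm : 0 < m) {φ : Site d → ℝ}
    (h : ∀ x, lapR φ x + V x * φ x = E * φ x) (hd : ∀ x, |φ x| ≤ B * Real.exp (-m * sd 0 x))
    {y : Site d} (hy : φ y ≠ 0) :
    ∃ C : ℝ, Sol C m (tau y V) E (fun x => φ (x + y) / φ y) ∧
      lapR (fun x => φ (x + y) / φ y) 0 + tau y V 0 = E := by
  have hB : 0 ≤ B := by
    have h1 := (abs_nonneg _).trans (hd 0)
    have h2 := Real.exp_pos (-m * sd (0 : Site d) 0)
    by_contra hc
    push Not at hc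
    nlinarith
  have hn0 : φ (0 + y) / φ y = 1 := by rw [zero_add]; exact div_self hy
  have hlap : ∀ x, lapR (fun x => φ (x + y) / φ y) x = lapR φ (x + y) / φ y := by
    intro x
    unfold lapR
    rw [Finset.sum_div]
    refine Finset.sum_congr rfl fun i _ => ?_
    have e1 : x + Pi.single i 1 + y = x + y + Pi.single i 1 := by abel
    have e2 : x - Pi.single i 1 + y = x + y - Pi.single i 1 := by abel
    beta_reduce
    rw [e1, e2, add_div]
  have heq : ∀ x, lapR (fun x => φ (x + y) / φ y) x + tau y V x * (φ (x + y) / φ y) =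
      E * (φ (x + y) / φ y) := by
    intro x
    rw [hlap]
    have := h (x + y)
    unfold tau
    rw [← mul_div_assoc, ← add_div, this, mul_div_assoc]
  refine ⟨B * Real.exp (m * sd 0 y) / |φ y|, ⟨hn0, ?_, fun x _ => heq x⟩, ?_⟩
  · intro x
    have h1 : |φ (x + y) / φ y| ≤ B * Real.exp (-m * sd 0 (x + y)) / |φ y| := by
      rw [abs_div]
      exact div_le_div_of_nonneg_right (hd _) (abs_nonneg _)
    have h2 : (sd 0 x : ℝ) ≤ sd 0 (x + y) + sd 0 y := by
      have := sd_triangle 0 (x + y) x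
      rw [sd_add_right] at this
      exact_mod_cast this
    have h3 : Real.exp (-m * sd 0 (x + y)) ≤ Real.exp (m * sd 0 y) * Real.exp (-m * sd 0 x) := by
      rw [← Real.exp_add, Real.exp_le_exp]
      nlinarith
    refine h1.trans ?_
    rw [div_mul_eq_mul_div]
    refine div_le_div_of_nonneg_right ?_ (abs_nonneg _)
    calc B * Real.exp (-m * sd 0 (x + y)) ≤ B * (Real.exp (m * sd 0 y) * Real.exp (-m * sd 0 x)) :=
          mul_le_mul_of_nonneg_left h3 hB
      _ = B * Real.exp (m * sd 0 y) * Real.exp (-m * sd 0 x) := by ring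
  · have := heq 0
    rw [hn0, mul_one, mul_one] at this
    exact this


theorem nxj : NxjStmt := by
  intro d σ γ _ hyp
  have h1 : ∀ p : Site d × ℕ × ℕ × ℚ, ∀ᵐ V ∂(PP d (gl σ)), 0 < (p.2.2.2 : ℝ) →
      ∀ E ∈ Set.Icc (-(p.2.1 : ℝ)) p.2.1, (p.2.2.2 : ℝ) < γ E → ∀ n,
      Sol (p.2.1 : ℝ) (1 / ((p.2.2.1 : ℝ) + 1)) (tau p.1 V) E n →
        lapR n 0 + tau p.1 V 0 = E → ∃ B : ℝ, Dec B (p.2.2.2 : ℝ) n := by
    rintro ⟨y, k, j, q⟩
    by_cases hq : 0 < (q : ℝ)
    · have h2 := hyp (k : ℝ) (1 / ((j : ℝ) + 1)) (q : ℝ) (Set.Icc (-(k : ℝ)) k) (by positivity)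
        hq isCompact_Icc
      have h3 := (shiftInv_PP (d := d) (gl σ) y).quasiMeasurePreserving.ae h2
      filter_upwards [h3] with V hV _
      exact hV
    · exact Filter.Eventually.of_forall fun V h => absurd h hq
  have h2 := ae_all_iff.2 h1
  filter_upwards [h2] with V hV E ψ hψ hdec c hc
  obtain ⟨B, m, hm, hB⟩ := hdec
  have hB0 : 0 ≤ B := by
    have h1 := (norm_nonneg _).trans (hB 0)
    have h2 := Real.exp_pos (-m * sd (0 : Site d) 0)
    by_contra hc
    push Not at hc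
    nlinarith
  rcases le_or_gt c 0 with hc0 | hc0
  · refine ⟨B, fun x => (hB x).trans (mul_le_mul_of_nonneg_left ?_ hB0)⟩
    rw [Real.exp_le_exp]
    have : (0 : ℝ) ≤ sd 0 x := by positivity
    nlinarith
  obtain ⟨q, hq1, hq2⟩ := exists_rat_btwn hc
  have hq0 : 0 < (q : ℝ) := hc0.trans hq1
  have key : ∀ φ : Site d → ℝ, (∀ x, lapR φ x + V x * φ x = E * φ x) →
      (∀ x, |φ x| ≤ B * Real.exp (-m * sd 0 x)) →
      ∃ B' : ℝ, ∀ x, |φ x| ≤ B' * Real.exp (-c * sd 0 x) := by
    intro φ e1 e2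
    by_cases h0 : ∀ y, φ y = 0
    · refine ⟨0, fun x => ?_⟩
      rw [h0 x, abs_zero, zero_mul]
    push Not at h0
    obtain ⟨y, hy⟩ := h0
    obtain ⟨C, s1, s2⟩ := sol_of_real' hm e1 e2 hy
    obtain ⟨k, hk⟩ := exists_nat_ge (max C |E|)
    obtain ⟨j, hj⟩ := exists_nat_one_div_lt hm
    have hE : E ∈ Set.Icc (-(k : ℝ)) k := abs_le.1 ((le_max_right _ _).trans hk)
    obtain ⟨B', hB'⟩ := hV (y, k, j, q) hq0 E hE hq2 _
      (sol_mono s1 ((le_max_left _ _).trans hk) hj.le) s2
    have hB'0 : 0 ≤ B' := hB'.nonneg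
    refine ⟨|φ y| * (B' * Real.exp (q * sd 0 y)), fun x => ?_⟩
    have h3 := hB' (x - y)
    simp only [sub_add_cancel] at h3
    have hy' : 0 < |φ y| := abs_pos.2 hy
    rw [abs_div, div_le_iff₀ hy'] at h3
    have h4 : (sd 0 x : ℝ) ≤ sd 0 (x - y) + sd 0 y := by
      have h5 := sd_triangle 0 (x - y) x
      have h6 := sd_add_right (x - y) y
      rw [sub_add_cancel, sd_comm] at h6
      rw [h6] at h5
      exact_mod_cast h5
    have h7 : (0 : ℝ) ≤ sd 0 x := by positivity
    have h8 : Real.exp (-q * sd 0 (x - y)) ≤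
        Real.exp (q * sd 0 y) * Real.exp (-c * sd 0 x) := by
      rw [← Real.exp_add, Real.exp_le_exp]
      nlinarith
    calc |φ x| ≤ B' * Real.exp (-q * sd 0 (x - y)) * |φ y| := h3
      _ ≤ B' * (Real.exp (q * sd 0 y) * Real.exp (-c * sd 0 x)) * |φ y| :=
          mul_le_mul_of_nonneg_right (mul_le_mul_of_nonneg_left h8 hB'0) hy'.le
      _ = |φ y| * (B' * Real.exp (q * sd 0 y)) * Real.exp (-c * sd 0 x) := by ring
  have hre : ∀ y, (lap ψ y).re = lapR (fun z => (ψ z).re) y := by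
    intro y
    unfold lap lapR
    rw [Complex.re_sum]
    exact Finset.sum_congr rfl fun i _ => Complex.add_re _ _
  have him : ∀ y, (lap ψ y).im = lapR (fun z => (ψ z).im) y := by
    intro y
    unfold lap lapR
    rw [Complex.im_sum]
    exact Finset.sum_congr rfl fun i _ => Complex.add_im _ _
  obtain ⟨B₁, hB₁⟩ := key (fun z => (ψ z).re) (by
    intro y
    have := congrArg Complex.re (hψ y)
    rw [Complex.add_re, Complex.re_ofReal_mul, Complex.re_ofReal_mul, hre] at this
    exact this) fun y => (Complex.abs_re_le_norm _).trans (hB y)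
  obtain ⟨B₂, hB₂⟩ := key (fun z => (ψ z).im) (by
    intro y
    have := congrArg Complex.im (hψ y)
    rw [Complex.add_im, Complex.im_ofReal_mul, Complex.im_ofReal_mul, him] at this
    exact this) fun y => (Complex.abs_im_le_norm _).trans (hB y)
  refine ⟨B₁ + B₂, fun x => ?_⟩
  rw [add_mul]
  exact (Complex.norm_le_abs_re_add_abs_im _).trans (add_le_add (hB₁ x) (hB₂ x))

end Pool.Agent.LE.H39R
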